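import Pool.Agent.Y677.RSZ.Fin
import Pool.Agent.R490.Cub

set_option autoImplicit false

/-!
# Narrow progressions in arbitrary sets of the `m` with `m ^ 3 + k` prime or rough
-/

namespace Pool.Agent.Results.MP_4d57ea_nt.NarrowProgressions

open Finset Filter

/-- The numbers `m` such that all prime factors of `m ^ 3 + k` are larger than `m ^ (1 / r)`. It
contains all large `m` such that `m ^ 3 + k` is a prime. -/
def RoughArguments (k : ℤ) (r : ℕ) : Set ℕ :=
  {m | ∀ p : ℕ, p.Prime → (p : ℤ) ∣ (m : ℤ) ^ 3 + k → (m : ℝ) ^ (1 / (r : ℝ)) < (p : ℝ)}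

/-- `m` is a term of an `l`-term arithmetic progression with difference at most `D`, all terms of which
are elements of `A` in the interval `(u, v]`. -/
def InProgression (A : Set ℕ) (l : ℕ) (D : ℝ) (u v m : ℕ) : Prop :=
  ∃ s d : ℕ, 1 ≤ d ∧ (d : ℝ) ≤ D ∧ (∀ i < l, s + i * d ∈ A ∧ u < s + i * d ∧ s + i * d ≤ v) ∧
    ∃ i < l, m = s + i * d

open Classical in
/-- **Narrow progressions.** Let `k` be an integer which is not a cube, `0 < θ ≤ 1`, `r, l ≥ 2` and
`ε > 0`. There is an exponent `B` such that for all large `X`, all `X ^ θ ≤ Y ≤ X` and EVERY set `A` of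
integers `m` such that `m ^ 3 + k` has no prime factor `≤ m ^ (1 / r)`, for instance every set of large `m`
with `m ^ 3 + k` prime: all but at most `ε Y / log X` of the elements of `A` in `(X, X + Y]` are terms of
`l`-term arithmetic progressions, contained in the part of `A` in `(X, X + Y]`, with difference at most
`(log X) ^ B`. -/
theorem result (k : ℤ) (hk : ¬ ∃ c : ℤ, c ^ 3 = k)
    (θ : ℝ) (hθ : 0 < θ) (r : ℕ) (hr : 2 ≤ r) (l : ℕ) (hl : 2 ≤ l) (ε : ℝ) (hε : 0 < ε) :
    ∃ B : ℕ, ∀ᶠ X : ℕ in atTop, ∀ Y : ℕ, (X : ℝ) ^ θ ≤ Y → Y ≤ X →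
      ∀ A : Set ℕ, A ⊆ RoughArguments k r →
        (((Ioc X (X + Y)).filter (fun m : ℕ =>
          m ∈ A ∧ ¬ InProgression A l (Real.log X ^ B) X (X + Y) m)).card : ℝ) ≤
        ε * (Y / Real.log X) := by
  obtain ⟨B, hB⟩ := Pool.Agent.Y677.RSZ.narrow (fun _ : Fin 1 => Pool.Agent.R490.Cub.cub k)
    (Pool.Agent.R490.Cub.cub_sys k hk) θ hθ r hr l hl ε hε
  refine ⟨B, ?_⟩
  filter_upwards [hB] with X hX Y hXY hYX A hA
  have h := hX Y hXY hYX A (fun m hm => by
    intro i p hp hd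
    rw [Pool.Agent.R490.Cub.cub_eval] at hd
    exact hA hm p hp hd)
  rw [Fintype.card_fin, pow_one, mul_div_assoc] at h
  refine le_trans (le_of_eq ?_) h
  unfold Pool.Agent.TH977.PW.N
  congr 2
  apply filter_congr
  intro m _
  exact Iff.rfl

end Pool.Agent.Results.MP_4d57ea_nt.NarrowProgressions
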