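import Pool.Agent.R490.InstP

set_option autoImplicit false

/-!
# The numbers `(h p) ^ 3 + k`, `p` prime: exact number of rough values and the law of their successors
-/

namespace Pool.Agent.Results.MP_4d57ea_nt.PrimeMultiples

open Finset Filter

/-- The polynomial `(h x) ^ 3 + k`. -/
def q (h : ℕ) (k x : ℤ) : ℤ := (h * x) ^ 3 + k

/-- `f m` has no prime factor `≤ y`. -/
def Rough (f : ℤ → ℤ) (y m : ℕ) : Prop := ∀ l : ℕ, l.Prime → l ≤ y → ¬ (l : ℤ) ∣ f (m : ℤ)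

/-- Neither `m` nor `f m` has a prime factor `≤ y`. -/
def Rough2 (f : ℤ → ℤ) (y m : ℕ) : Prop :=
  ∀ l : ℕ, l.Prime → l ≤ y → ¬ l ∣ m ∧ ¬ (l : ℤ) ∣ f (m : ℤ)

open Classical in
/-- The density of the condition `Rough2`: the product of `1 - ν(l) / l` over the primes `l ≤ y`, where
`ν(l)` is the number of the residues `m` modulo `l` with `l ∣ m` or `l ∣ f m`. -/
noncomputable def V (f : ℤ → ℤ) (y : ℕ) : ℝ := ∏ l ∈ (Finset.range (y + 1)).filter Nat.Prime,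
    (1 - (((Finset.range l).filter (fun m : ℕ => l ∣ m ∨ (l : ℤ) ∣ f (m : ℤ))).card : ℝ) / l)

open Classical in
/-- The product of `(1 - ν(l) / l) / (1 - 1 / l)` over the primes `l ≤ y`. -/
noncomputable def W (f : ℤ → ℤ) (y : ℕ) : ℝ := ∏ l ∈ (Finset.range (y + 1)).filter Nat.Prime,
    (1 - (((Finset.range l).filter (fun m : ℕ => l ∣ m ∨ (l : ℤ) ∣ f (m : ℤ))).card : ℝ) / l) /
      (1 - 1 / (l : ℝ))

open Classical in
/-- The primes `p > y` in `(u, u + Y]` for which `f p` has no prime factor `≤ y`. -/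
noncomputable def P (f : ℤ → ℤ) (y u Y : ℕ) : Finset ℕ :=
  (Ioc u (u + Y)).filter (fun p => p.Prime ∧ y < p ∧ Rough f y p)

open Classical in
/-- The number of the integers `m` in `(n, n + T]` for which neither `m` nor `f m` has a prime factor
`≤ y`. -/
noncomputable def Next (f : ℤ → ℤ) (y T n : ℕ) : ℕ := ((Ioc n (n + T)).filter (fun m => Rough2 f y m)).card

/-- **The values `(h p) ^ 3 + k` at the primes `p`.** For all `A`, `θ, δ > 0`, `x0` and `ε > 0` there is `r0` such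
that for `r ≥ r0` and all large `N` the following holds with `y = N ^ (1 / r)` for ALL `1 ≤ h ≤ N ^ A` and
`|k| ≤ N ^ A` such that `k` is not a cube, `h` and `k` are coprime and not both odd, all `X ≥ N ^ θ` and all
intervals `(u, u + Y]` in `(0, X]` with `Y ≥ δ X`: (1) the number of the primes `p > y` in
the interval for which `(h p) ^ 3 + k` has no prime factor `≤ y` is `(1 + O(ε)) Y W / log X`; (2) if
`T V ≤ x0`, then the number of the integers `m` in `(p, p + T]` for which neither `m` nor `(h m) ^ 3 + k` has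
a prime factor `≤ y`, `p` running over these primes, has the Poisson law with mean `T V`, up to `ε`. -/
theorem result (A : ℕ) (θ δ : ℝ) (hθ : 0 < θ) (hδ : 0 < δ) (hδ1 : δ ≤ 1) (x0 ε : ℝ) (hε : 0 < ε)
    (hε1 : ε ≤ 1) :
    ∃ r0 : ℕ, 2 ≤ r0 ∧ ∀ r : ℕ, r0 ≤ r → ∀ᶠ N : ℕ in atTop, ∀ (h : ℕ) (k : ℤ), 1 ≤ h → (¬ ∃ d : ℤ, d ^ 3 = k) →
      IsCoprime (h : ℤ) k → Even ((h : ℤ) * k) → h ≤ N ^ A → |k| ≤ (N : ℤ) ^ A →
      0 < W (q h k) ⌊(N : ℝ) ^ (1 / (r : ℝ))⌋₊ ∧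
      ∀ X : ℕ, (N : ℝ) ^ θ ≤ X → ∀ u Y : ℕ, δ * X ≤ Y → u + Y ≤ X →
        |((P (q h k) ⌊(N : ℝ) ^ (1 / (r : ℝ))⌋₊ u Y).card : ℝ) * Real.log X -
          Y * W (q h k) ⌊(N : ℝ) ^ (1 / (r : ℝ))⌋₊| ≤ ε * (Y * W (q h k) ⌊(N : ℝ) ^ (1 / (r : ℝ))⌋₊) ∧
        ∀ T : ℕ, T * V (q h k) ⌊(N : ℝ) ^ (1 / (r : ℝ))⌋₊ ≤ x0 → ∀ J : Finset ℕ,
          |(((P (q h k) ⌊(N : ℝ) ^ (1 / (r : ℝ))⌋₊ u Y).filter
              (fun n => Next (q h k) ⌊(N : ℝ) ^ (1 / (r : ℝ))⌋₊ T n ∈ J)).card : ℝ) -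
            (P (q h k) ⌊(N : ℝ) ^ (1 / (r : ℝ))⌋₊ u Y).card *
              ∑ j ∈ J, Real.exp (-(T * V (q h k) ⌊(N : ℝ) ^ (1 / (r : ℝ))⌋₊)) *
                (T * V (q h k) ⌊(N : ℝ) ^ (1 / (r : ℝ))⌋₊) ^ j / j.factorial| ≤
            ε * (P (q h k) ⌊(N : ℝ) ^ (1 / (r : ℝ))⌋₊ u Y).card := by
  obtain ⟨r0, hr0, h0⟩ := Pool.Agent.R490.PA.primeS 3 (3 * A) (by norm_num) θ δ hθ hδ hδ1 x0 ε hε hε1
  refine ⟨r0, hr0, fun r hr => ?_⟩
  filter_upwards [h0 r hr, eventually_ge_atTop 1] with N hN hN1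
  intro h k hh hk hco heven hhN hkN
  exact hN _ (q h k) (Pool.Agent.R490.PA.good_c h k _ hh hco heven hk
    (by rw [mul_comm 3 A, pow_mul]; exact_mod_cast Nat.pow_le_pow_left hhN 3)
    (hkN.trans (pow_le_pow_right₀ (by exact_mod_cast hN1) (by omega)))) _ rfl

end Pool.Agent.Results.MP_4d57ea_nt.PrimeMultiples
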