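import Pool.Agent.R490.Inst

set_option autoImplicit false

/-!
# Rough values of `m ^ 3 + c`: the law of the spacings, uniformly in `c`
-/

namespace Pool.Agent.Results.MP_4d57ea_nt.SpacingLaw

open Finset Filter

/-- The polynomial `x ^ 3 + c`. -/
def q (c x : ℤ) : ℤ := x ^ 3 + c

/-- `f m` has no prime factor `≤ y`. -/
def Rough (f : ℤ → ℤ) (y m : ℕ) : Prop := ∀ p : ℕ, p.Prime → p ≤ y → ¬ (p : ℤ) ∣ f (m : ℤ)

open Classical in
/-- The sieve density: the product of `1 - ρ(p) / p` over the primes `p ≤ y`, where `ρ(p)` is the number of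
the residues `m` modulo `p` with `p ∣ f m`. -/
noncomputable def V (f : ℤ → ℤ) (y : ℕ) : ℝ := ∏ p ∈ (Finset.range (y + 1)).filter Nat.Prime,
    (1 - (((Finset.range p).filter (fun m : ℕ => (p : ℤ) ∣ f (m : ℤ))).card : ℝ) / p)

/-- The density of the integers without prime factor `≤ y`; `V f y / V1 y` is the product of the
conjecture, cut at `y`. -/
noncomputable def V1 (y : ℕ) : ℝ := ∏ p ∈ (Finset.range (y + 1)).filter Nat.Prime, (1 - 1 / (p : ℝ))

open Classical in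
/-- The number of the rough `n` in `(u, u + Y]` for which fewer than `k` of the `T` integers before `n` are
rough, that is, for which the distance from `n` to the `k`-th preceding rough integer is larger than `T`;
rough means `Rough f y`. -/
noncomputable def D (f : ℤ → ℤ) (y k T u Y : ℕ) : ℕ :=
  ((Ioc u (u + Y)).filter (fun n => Rough f y n ∧
    ((Ico (n - T) n).filter (fun m => Rough f y m)).card < k)).card

open Classical in
/-- **The law of the spacings.** For all `A`, `θ > 0`, `k0`, `x0` and `ε > 0` there is `r0` such that for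
`r ≥ r0`, every `B` and all large `X` the following holds for ALL integers `c`, `|c| ≤ X ^ A`, which are not
cubes and satisfy `V ≤ B V1`, and for EVERY interval `(u, u + Y]`, `Y ≥ X ^ θ`: among the integers `m` in it
for which `m ^ 3 + c` has no prime factor `≤ X ^ (1 / r)`, the distances to the `k`-th preceding one have,
in units `1 / V` and up to `ε`, the distribution which belongs to a Poisson process; for `k = 1` it is the
exponential distribution. -/
theorem result (A : ℕ) (θ : ℝ) (hθ : 0 < θ) (k0 : ℕ) (x0 ε : ℝ) (hε : 0 < ε) :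
    ∃ r0 : ℕ, ∀ r : ℕ, r0 ≤ r → ∀ B : ℝ, ∀ᶠ X : ℕ in atTop, ∀ c : ℤ, (¬ ∃ d : ℤ, d ^ 3 = c) →
      |c| ≤ (X : ℤ) ^ A →
      V (q c) ⌊(X : ℝ) ^ (1 / (r : ℝ))⌋₊ ≤ B * V1 ⌊(X : ℝ) ^ (1 / (r : ℝ))⌋₊ →
      ∀ u Y : ℕ, (X : ℝ) ^ θ ≤ Y → ∀ k T : ℕ,
        (k ≤ k0 ∨ T * V (q c) ⌊(X : ℝ) ^ (1 / (r : ℝ))⌋₊ ≤ x0) →
        |(D (q c) ⌊(X : ℝ) ^ (1 / (r : ℝ))⌋₊ k T u Y : ℝ) -
          Y * V (q c) ⌊(X : ℝ) ^ (1 / (r : ℝ))⌋₊ *
            ∑ j ∈ range k, Real.exp (-(T * V (q c) ⌊(X : ℝ) ^ (1 / (r : ℝ))⌋₊)) *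
              (T * V (q c) ⌊(X : ℝ) ^ (1 / (r : ℝ))⌋₊) ^ j / j.factorial| ≤
          ε * (Y * V (q c) ⌊(X : ℝ) ^ (1 / (r : ℝ))⌋₊) := by
  obtain ⟨r0, h0⟩ := Pool.Agent.R490.Sg.gapS 3 A θ hθ k0 x0 ε hε
  refine ⟨r0, fun r hr B => ?_⟩
  filter_upwards [h0 r hr B, eventually_ge_atTop 1] with X hX hX1
  intro c hk hkX hV u Y hY k T hT
  exact hX _ (q c) (Pool.Agent.R490.Sg.good_cub c _ hk (one_le_pow₀ (by exact_mod_cast hX1)) hkX) _ rfl hV u Y hY k T hT

end Pool.Agent.Results.MP_4d57ea_nt.SpacingLaw
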